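import Pool.Agent.Lib.MP_e1f7e2_al.Graded

set_option autoImplicit false

/-!
Automorphisms normalising the tame group: formal approximation.
-/

namespace Pool.Agent.Lib.MP_e1f7e2_al

open Polynomial

universe u v

variable {K : Type u} [Field K]

/-- If `ψ` normalises `TAut` then so does `τ⁻¹ ψ` for `τ` in `TAut`. -/
lemma Normalizes.mul_left {A : Type v} [Ring A] [Algebra K A] {n : ℕ} {x : Fin n → A}
    {ψ τ : A ≃ₐ[K] A} (h : Normalizes x ψ) (hτ : τ ∈ TAut K x) : Normalizes x (τ⁻¹ * ψ) := by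
  intro φ hφ
  have := h (τ * φ * τ⁻¹) (Subgroup.mul_mem _ (Subgroup.mul_mem _ hτ hφ) (Subgroup.inv_mem _ hτ))
  simpa [mul_assoc] using this

section

variable {A : Type v} [Ring A] [Algebra K A] {n : ℕ}

/-- The span of the monomials (products of generators) whose weight is at least `k`. -/
def weightGE (K : Type u) [Field K] {A : Type v} [Ring A] [Algebra K A] {n : ℕ}
    (x : Fin n → A) (w : Fin n → ℕ) (k : ℕ) : Submodule K A :=
  Submodule.span K {a | ∃ l : List (Fin n), k ≤ (l.map w).sum ∧ a = (l.map x).prod}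

/-- The span of the monomials (products of generators) whose weight is at most `k`. -/
def weightLE (K : Type u) [Field K] {A : Type v} [Ring A] [Algebra K A] {n : ℕ}
    (x : Fin n → A) (w : Fin n → ℕ) (k : ℕ) : Submodule K A :=
  Submodule.span K {a | ∃ l : List (Fin n), (l.map w).sum ≤ k ∧ a = (l.map x).prod}

/-- The span of the monomials of weight `k`. -/
def weightEQ (K : Type u) [Field K] {A : Type v} [Ring A] [Algebra K A] {n : ℕ}
    (x : Fin n → A) (w : Fin n → ℕ) (k : ℕ) : Submodule K A :=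
  Submodule.span K {a | ∃ l : List (Fin n), (l.map w).sum = k ∧ a = (l.map x).prod}

namespace FreeOn

variable {x : Fin n → A} (hx : FreeOn K x)

include hx

lemma Phi_prod (w : Fin n → ℕ) (l : List (Fin n)) :
    hx.Phi w (l.map x).prod = C (l.map x).prod * X ^ (l.map w).sum := by
  induction l with
  | nil => simp
  | cons i l ih =>
    rw [List.map_cons, List.prod_cons, map_mul, ih, hx.Phi_x, List.map_cons, List.sum_cons,
      C_mul, pow_add, mul_assoc, mul_assoc, ← mul_assoc (X ^ w i) (C _), X_pow_mul, mul_assoc]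

omit hx in
lemma weightEQ_mul (w : Fin n → ℕ) (i j : ℕ) (a b : A) (ha : a ∈ weightEQ K x w i)
    (hb : b ∈ weightEQ K x w j) : a * b ∈ weightEQ K x w (i + j) := by
  induction ha using Submodule.span_induction with
  | mem a h =>
    obtain ⟨l, hl, rfl⟩ := h
    induction hb using Submodule.span_induction with
    | mem b h =>
      obtain ⟨m, hm, rfl⟩ := h
      refine Submodule.subset_span ⟨l ++ m, ?_, ?_⟩
      · rw [List.map_append, List.sum_append, hl, hm]
      · rw [List.map_append, List.prod_append]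
    | zero => rw [mul_zero]; exact Submodule.zero_mem _
    | add b c _ _ hb hc => rw [mul_add]; exact Submodule.add_mem _ hb hc
    | smul r b _ hb => rw [mul_smul_comm]; exact Submodule.smul_mem _ _ hb
  | zero => rw [zero_mul]; exact Submodule.zero_mem _
  | add b c _ _ hb hc => rw [add_mul]; exact Submodule.add_mem _ hb hc
  | smul r b _ hb => rw [smul_mul_assoc]; exact Submodule.smul_mem _ _ hb

lemma coeff_mem_weightEQ (w : Fin n → ℕ) (a : A) (d : ℕ) :
    (hx.Phi w a).coeff d ∈ weightEQ K x w d := by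
  induction a using hx.induction generalizing d with
  | hgen i =>
    rw [hx.Phi_x, coeff_C_mul, coeff_X_pow]
    split_ifs with h
    · rw [mul_one]
      exact Submodule.subset_span ⟨[i], by simp [h], by simp⟩
    · rw [mul_zero]; exact Submodule.zero_mem _
  | hs c =>
    rw [hx.Phi_algebraMap, coeff_C]
    split_ifs with h
    · subst h
      rw [Algebra.algebraMap_eq_smul_one]
      exact Submodule.smul_mem _ _ (Submodule.subset_span ⟨[], by simp, by simp⟩)
    · exact Submodule.zero_mem _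
  | hadd a b ha hb => rw [map_add, coeff_add]; exact Submodule.add_mem _ (ha d) (hb d)
  | hmul a b ha hb =>
    rw [map_mul, coeff_mul]
    refine Submodule.sum_mem _ ?_
    rintro ⟨i, j⟩ hij
    rw [Finset.HasAntidiagonal.mem_antidiagonal] at hij
    rw [← hij]
    exact weightEQ_mul w i j _ _ (ha i) (hb j)

lemma sum_coeff (w : Fin n → ℕ) (a : A) :
    a = ∑ d ∈ (hx.Phi w a).support, (hx.Phi w a).coeff d := by
  have h1 := hx.eval_Phi w 1 a
  rw [map_one, Units.val_one, map_one] at h1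
  have h2 : (1 : A ≃ₐ[K] A) a = a := rfl
  rw [h2, eval_eq_sum, Polynomial.sum_def] at h1
  simpa using h1.symm

lemma mem_weightGE_iff (w : Fin n → ℕ) (k : ℕ) (a : A) :
    a ∈ weightGE K x w k ↔ X ^ k ∣ hx.Phi w a := by
  constructor
  · intro h
    induction h using Submodule.span_induction with
    | mem a h =>
      obtain ⟨l, hl, rfl⟩ := h
      rw [hx.Phi_prod]
      exact X_pow_dvd_mul_left (pow_dvd_pow X hl) _
    | zero => simp
    | add a b _ _ ha hb => rw [map_add]; exact dvd_add ha hb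
    | smul c a _ ha =>
      rw [map_smul]
      obtain ⟨r, hr⟩ := ha
      rw [hr]
      exact ⟨c • r, by rw [mul_smul_comm]⟩
  · intro h
    rw [hx.sum_coeff w a]
    refine Submodule.sum_mem _ ?_
    intro d hd
    have hkd : k ≤ d := by
      by_contra hcon
      exact (mem_support_iff.1 hd) ((X_pow_dvd_iff.1 h) d (by omega))
    have h1 := hx.coeff_mem_weightEQ w a d
    refine Submodule.span_mono ?_ h1
    rintro _ ⟨l, hl, rfl⟩
    exact ⟨l, by omega, rfl⟩

lemma natDegree_of_weightLE (w : Fin n → ℕ) (k : ℕ) (a : A) (ha : a ∈ weightLE K x w k) :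
    (hx.Phi w a).natDegree ≤ k := by
  induction ha using Submodule.span_induction with
  | mem a h =>
    obtain ⟨l, hl, rfl⟩ := h
    rw [hx.Phi_prod]
    exact (natDegree_C_mul_X_pow_le _ _).trans hl
  | zero => simp
  | add a b _ _ ha hb => rw [map_add]; exact (natDegree_add_le _ _).trans (max_le ha hb)
  | smul c a _ ha => rw [map_smul]; exact (natDegree_smul_le _ _).trans ha

lemma tor_Near (w : Fin n → ℕ) (k : ℕ) (l : Kˣ) (g : A ≃ₐ[K] A) (hg : hx.Near w k g) :
    hx.Near w k (hx.tor w l * g * (hx.tor w l)⁻¹) := by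
  have hfil : ∀ (l : Kˣ) (p q : A) (j : ℕ), X ^ j ∣ hx.Phi w p - hx.Phi w q →
      X ^ j ∣ hx.Phi w (hx.tor w l p) - hx.Phi w (hx.tor w l q) := by
    intro l p q j h
    rw [X_pow_dvd_iff] at h ⊢
    intro d hd
    have := h d hd
    rw [coeff_sub] at this ⊢
    rw [coeff_Phi_tor, coeff_Phi_tor, ← smul_sub, this, smul_zero]
  intro a j hj
  rw [← map_inv]
  have h1 : X ^ j ∣ hx.Phi w (hx.tor w l⁻¹ a) := by
    have := hfil l⁻¹ a 0 j (by simpa using hj)
    simpa using this
  have h2 := hg _ _ h1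
  have h3 := hfil l _ _ _ h2
  have e : hx.tor w l (hx.tor w l⁻¹ a) = a := by
    rw [← AlgEquiv.mul_apply, ← map_mul, mul_inv_cancel, map_one]
    rfl
  rw [e] at h3
  exact h3

end FreeOn

end

section

variable {A : Type u} [Ring A] [Algebra K A] {n : ℕ} {x : Fin n → A}

lemma FreeOn.weightStep (hx : FreeOn K x) (w : Fin n → ℕ) (G : Subgroup (A ≃ₐ[K] A))
    (hG : ∀ l : Kˣ, ∀ g ∈ G, hx.tor w l * g * (hx.tor w l)⁻¹ ∈ G) (k : ℕ) (hk : 1 ≤ k) :
    WeightStep K (TAut K x) (G ⊓ hx.U w k) (G ⊓ hx.U w (k + 1)) := by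
  classical
  have hN : ∀ g : (G ⊓ hx.U w k : Subgroup _), hx.Near w k (g : A ≃ₐ[K] A) := fun g => g.2.2 hk
  -- the component of degree `w i + k`
  let q : (A ≃ₐ[K] A) → (Fin n → A) :=
    fun g i => (hx.Phi w (g (x i)) - hx.Phi w (x i)).coeff (w i + k)
  have hX : ∀ i, (X : A[X]) ^ w i ∣ hx.Phi w (x i) := by
    intro i
    rw [hx.Phi_x]
    exact ⟨C (x i), by rw [X_pow_mul]⟩
  have hdvd : ∀ (g : A ≃ₐ[K] A), hx.Near w k g → ∀ i,
      X ^ (w i + k) ∣ hx.Phi w (g (x i)) - hx.Phi w (x i) := fun g hg i => hg (x i) (w i) (hX i)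
  have hmul : ∀ g h : A ≃ₐ[K] A, hx.Near w k g → hx.Near w k h → q (g * h) = q g + q h := by
    intro g h hg hh
    funext i
    simp only [q, Pi.add_apply, AlgEquiv.mul_apply]
    have h1 : X ^ (w i + k) ∣ hx.Phi w (h (x i) - x i) := by
      rw [map_sub]; exact hdvd h hh i
    have h2 := hg _ _ h1
    have h3 : (hx.Phi w (g (h (x i) - x i)) - hx.Phi w (h (x i) - x i)).coeff (w i + k) = 0 :=
      (X_pow_dvd_iff.1 h2) (w i + k) (by omega)
    simp only [map_sub, coeff_sub] at h3 ⊢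
    have h4 : (hx.Phi w (g (h (x i)))).coeff (w i + k) - (hx.Phi w (x i)).coeff (w i + k) =
      ((hx.Phi w (g (h (x i)))).coeff (w i + k) - (hx.Phi w (g (x i))).coeff (w i + k) -
      ((hx.Phi w (h (x i))).coeff (w i + k) - (hx.Phi w (x i)).coeff (w i + k))) +
      ((hx.Phi w (g (x i))).coeff (w i + k) - (hx.Phi w (x i)).coeff (w i + k) +
      ((hx.Phi w (h (x i))).coeff (w i + k) - (hx.Phi w (x i)).coeff (w i + k))) := by abel
    rw [h4, h3, zero_add]
  let p : (G ⊓ hx.U w k : Subgroup _) →* Multiplicative (ℤ →₀ (Fin n → A)) :=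
    { toFun := fun g => Multiplicative.ofAdd (Finsupp.single (k : ℤ) (q g))
      map_one' := by
        have : q ((1 : (G ⊓ hx.U w k : Subgroup _)) : A ≃ₐ[K] A) = 0 := by
          funext i
          simp [q]
        rw [this, Finsupp.single_zero]
        rfl
      map_mul' := by
        intro g h
        have : q ((g * h : (G ⊓ hx.U w k : Subgroup _)) : A ≃ₐ[K] A) = q g + q h :=
          hmul g h (hN g) (hN h)
        rw [this, Finsupp.single_add]
        rfl }
  refine ⟨hx.tor w, (Fin n → A), inferInstance, inferInstance, p, ?_, ?_, ?_, ?_⟩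
  · exact fun l => hx.tor_mem _ l
  · intro g hg
    have h1 : Finsupp.single (k : ℤ) (q g) = 0 := hg
    have h2 : q g = 0 := by simpa using h1
    refine ⟨g.2.1, fun _ => hx.near_of_gen w (k + 1) _ (fun i => ?_)⟩
    rw [X_pow_dvd_iff]
    intro d hd
    by_cases hdk : d = w i + k
    · subst hdk
      exact congrFun h2 i
    · exact (X_pow_dvd_iff.1 (hdvd g (hN g) i)) d (by omega)
  · intro g
    show (Finsupp.single (k : ℤ) (q g)) 0 = 0
    rw [Finsupp.single_eq_of_ne]
    omega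
  · intro l g
    have hmem : hx.tor w l * g * (hx.tor w l)⁻¹ ∈ G ⊓ hx.U w k :=
      ⟨hG l _ g.2.1, fun _ => hx.tor_Near w k l g (hN g)⟩
    refine ⟨hmem, ?_⟩
    show Finsupp.single (k : ℤ) (q (hx.tor w l * g * (hx.tor w l)⁻¹))
      = wact l (Finsupp.single (k : ℤ) (q g))
    have h1 : q (hx.tor w l * g * (hx.tor w l)⁻¹) = ((l ^ (k : ℤ) : Kˣ) : K) • q g := by
      funext i
      simp only [q, Pi.smul_apply]
      rw [← map_inv, AlgEquiv.mul_apply, AlgEquiv.mul_apply, hx.tor_x, map_smul, map_smul,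
        map_smul, coeff_sub, coeff_smul, hx.coeff_Phi_tor, coeff_sub, smul_sub, smul_smul]
      have h2 : (hx.Phi w (x i)).coeff (w i + k) = 0 := by
        rw [hx.Phi_x, coeff_C_mul, coeff_X_pow, if_neg (by omega), mul_zero]
      rw [h2, smul_zero, sub_zero, sub_zero]
      congr 1
      have : (l : K) ≠ 0 := l.ne_zero
      simp only [Units.val_inv_eq_inv_val, zpow_natCast, Units.val_pow_eq_pow_val, pow_add]
      rw [← mul_assoc, ← mul_pow, inv_mul_cancel₀ this, one_pow, one_mul]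
    rw [h1]
    ext d
    simp only [wact_apply]
    by_cases hd : (k : ℤ) = d
    · subst hd
      rw [Finsupp.single_eq_same, Finsupp.single_eq_same]
    · rw [Finsupp.single_eq_of_ne (Ne.symm hd), Finsupp.single_eq_of_ne (Ne.symm hd), smul_zero]

/-- Formal approximation by tame automorphisms, inside a group which is stable under the torus. -/
theorem FreeOn.exists_tame_near [Infinite K] (hx : FreeOn K x) (w : Fin n → ℕ)
    (G : Subgroup (A ≃ₐ[K] A)) (hG : ∀ l : Kˣ, ∀ g ∈ G, hx.tor w l * g * (hx.tor w l)⁻¹ ∈ G)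
    (hG1 : G ≤ hx.U w 1) (ψ : A ≃ₐ[K] A) (hψG : ψ ∈ G) (hψ : Normalizes x ψ) (k : ℕ) :
    ∃ τ ∈ TAut K x, τ ∈ G ∧ τ⁻¹ * ψ ∈ hx.U w (k + 1) := by
  induction k with
  | zero => exact ⟨1, Subgroup.one_mem _, Subgroup.one_mem _, by simpa using hG1 hψG⟩
  | succ k ih =>
    obtain ⟨τ, hτ, hτG, hmem⟩ := ih
    have hn := Normalizes.mul_left hψ hτ
    obtain ⟨v, hv, hvG, hvψ⟩ := exists_of_step (TAut K x) _ _
      (hx.weightStep w G hG (k + 1) (by omega))
      (τ⁻¹ * ψ) ⟨Subgroup.mul_mem _ (Subgroup.inv_mem _ hτG) hψG, hmem⟩ hn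
    refine ⟨τ * v, Subgroup.mul_mem _ hτ hv, Subgroup.mul_mem _ hτG hvG.1, ?_⟩
    rw [mul_inv_rev, mul_assoc]
    exact hvψ.2

/-- Groups of bounded degree. -/
theorem FreeOn.mem_of_bounded [Infinite K] (hx : FreeOn K x) (w : Fin n → ℕ)
    (G : Subgroup (A ≃ₐ[K] A)) (hG : ∀ l : Kˣ, ∀ g ∈ G, hx.tor w l * g * (hx.tor w l)⁻¹ ∈ G)
    (hG1 : G ≤ hx.U w 1) (N : ℕ) (hN : ∀ g ∈ G, ∀ i, (hx.Phi w (g (x i))).natDegree ≤ N)
    (ψ : A ≃ₐ[K] A) (hψG : ψ ∈ G) (hψ : Normalizes x ψ) : ψ ∈ TAut K x := by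
  obtain ⟨τ, hτ, hτG, hmem⟩ := hx.exists_tame_near w G hG hG1 ψ hψG hψ (N + ∑ i, w i)
  have hG' : τ⁻¹ * ψ ∈ G := Subgroup.mul_mem _ (Subgroup.inv_mem _ hτG) hψG
  have h1 : τ⁻¹ * ψ = 1 := by
    apply hx.aut_ext
    intro i
    have h2 := (hx.mem_U_iff w _ (by omega) _).1 hmem i
    have h3 : (hx.Phi w ((τ⁻¹ * ψ) (x i)) - hx.Phi w (x i)).natDegree ≤ N + ∑ i, w i := by
      refine (natDegree_sub_le _ _).trans (max_le ?_ ?_)
      · exact (hN _ hG' i).trans (by omega)
      · rw [hx.Phi_x]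
        refine (natDegree_C_mul_X_pow_le _ _).trans ?_
        have := Finset.single_le_sum (f := w) (fun j _ => Nat.zero_le _) (Finset.mem_univ i)
        omega
    have h4 : hx.Phi w ((τ⁻¹ * ψ) (x i)) - hx.Phi w (x i) = 0 := by
      ext d
      rw [coeff_zero]
      by_cases hd : d < w i + (N + ∑ i, w i + 1)
      · exact (X_pow_dvd_iff.1 h2) d hd
      · exact coeff_eq_zero_of_natDegree_lt (by omega)
    rw [sub_eq_zero] at h4
    have h5 := hx.eval_Phi w 1 ((τ⁻¹ * ψ) (x i))
    rw [h4, hx.eval_Phi] at h5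
    simpa using h5.symm
  have : ψ = τ := by
    have := congrArg (fun g => τ * g) h1
    simpa using this
  rw [this]
  exact hτ

end

end Pool.Agent.Lib.MP_e1f7e2_al
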