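import Mathlib

set_option autoImplicit false

/-!
Tame automorphisms of an algebra `A` with distinguished generators `x i`, to be applied to
`A = MvPolynomial (Fin n) K`, `x = MvPolynomial.X`, and `A = FreeAlgebra K (Fin n)`,
`x = FreeAlgebra.ι K`.
-/

namespace Pool.Agent.Lib.MP_e1f7e2_al

section

variable {K : Type*} [Field K] {A : Type*} [Ring A] [Algebra K A] {n : ℕ}

/-- An automorphism is affine if each `x i` is sent to a `K`-linear combination of `1` and the
`x j`. (The linear part of an automorphism with this property is automatically invertible.) -/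
def IsAffine (x : Fin n → A) (φ : A ≃ₐ[K] A) : Prop :=
  ∀ i, φ (x i) ∈ Submodule.span K (insert 1 (Set.range x))

/-- An automorphism is elementary if for some `i` it sends `x i` to `α • x i + f`, with `α ≠ 0` and
`f` in the subalgebra generated by the `x j`, `j ≠ i`, and fixes every `x j`, `j ≠ i`. -/
def IsElementary (x : Fin n → A) (φ : A ≃ₐ[K] A) : Prop :=
  ∃ (i : Fin n) (α : K) (f : A), α ≠ 0 ∧ f ∈ Algebra.adjoin K (x '' {j | j ≠ i}) ∧
    φ (x i) = α • x i + f ∧ ∀ j, j ≠ i → φ (x j) = x j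

/-- The subgroup generated by the affine and the elementary automorphisms. -/
def TAut (K : Type*) [Field K] {A : Type*} [Ring A] [Algebra K A] {n : ℕ} (x : Fin n → A) :
    Subgroup (A ≃ₐ[K] A) :=
  Subgroup.closure {φ | IsAffine x φ ∨ IsElementary x φ}

/-- `ψ⁻¹ φ ψ` is tame for every tame `φ`. -/
def Normalizes (x : Fin n → A) (ψ : A ≃ₐ[K] A) : Prop :=
  ∀ φ ∈ TAut K x, ψ⁻¹ * φ * ψ ∈ TAut K x

lemma IsAffine.mem {x : Fin n → A} {φ : A ≃ₐ[K] A} (h : IsAffine x φ) : φ ∈ TAut K x :=
  Subgroup.subset_closure (Or.inl h)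

lemma IsElementary.mem {x : Fin n → A} {φ : A ≃ₐ[K] A} (h : IsElementary x φ) : φ ∈ TAut K x :=
  Subgroup.subset_closure (Or.inr h)

end

end Pool.Agent.Lib.MP_e1f7e2_al
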