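import Pool.Agent.Lib.MP_e1f7e2_al.Approx

set_option autoImplicit false

/-!
Automorphisms normalising the tame group: the normalisation of the linear part, and degenerations.
-/

namespace Pool.Agent.Lib.MP_e1f7e2_al

open Polynomial

universe u v

variable {K : Type u} [Field K] {A : Type v} [Ring A] [Algebra K A] {n : ℕ}

/-- The standard weights. -/
def std : Fin n → ℕ := fun _ => 1

/-- There are polynomial families `F`, `G` of tuples with `F(0) = ψ`, `G(0) = ψ⁻¹` (as tuples of
images of the generators), such that, for `λ ≠ 0`, `F(λ)` is a tame automorphism with inverse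
`G(λ)`. -/
def LimitOfTame (x : Fin n → A) (ψ : A ≃ₐ[K] A) : Prop :=
  ∃ F G : Fin n → A[X],
    (∀ i, (F i).eval 0 = ψ (x i)) ∧ (∀ i, (G i).eval 0 = ψ⁻¹ (x i)) ∧
    ∀ l : K, l ≠ 0 → ∃ τ ∈ TAut K x, (∀ i, (F i).eval (algebraMap K A l) = τ (x i)) ∧
      ∀ i, (G i).eval (algebraMap K A l) = τ⁻¹ (x i)

namespace FreeOn

variable {x : Fin n → A} (hx : FreeOn K x)

include hx

lemma coeff_zero_Phi (a : A) : ∃ c : K, (hx.Phi std a).coeff 0 = algebraMap K A c := by
  induction a using hx.induction with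
  | hgen i => exact ⟨0, by simp [std]⟩
  | hs c => exact ⟨c, by rw [hx.Phi_algebraMap]; simp⟩
  | hadd a b ha hb =>
    obtain ⟨c, hc⟩ := ha
    obtain ⟨d, hd⟩ := hb
    exact ⟨c + d, by simp [hc, hd]⟩
  | hmul a b ha hb =>
    obtain ⟨c, hc⟩ := ha
    obtain ⟨d, hd⟩ := hb
    exact ⟨c * d, by simp [hc, hd, mul_coeff_zero]⟩

lemma coeff_one_Phi (a : A) : (hx.Phi std a).coeff 1 ∈ Submodule.span K (Set.range x) := by
  induction a using hx.induction with
  | hgen i =>
    rw [Phi_x, std, pow_one, coeff_C_mul, coeff_X_one, mul_one]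
    exact Submodule.subset_span (Set.mem_range_self i)
  | hs c => rw [hx.Phi_algebraMap]; simp
  | hadd a b ha hb => rw [map_add, coeff_add]; exact Submodule.add_mem _ ha hb
  | hmul a b ha hb =>
    obtain ⟨c, hc⟩ := hx.coeff_zero_Phi a
    obtain ⟨d, hd⟩ := hx.coeff_zero_Phi b
    rw [map_mul, coeff_mul]
    rw [show Finset.HasAntidiagonal.antidiagonal (1 : ℕ) = {(0, 1), (1, 0)} from rfl]
    rw [Finset.sum_pair (by simp)]
    simp only [hc, hd]
    refine Submodule.add_mem _ ?_ ?_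
    · rw [← Algebra.smul_def]; exact Submodule.smul_mem _ _ hb
    · rw [← Algebra.commutes, ← Algebra.smul_def]; exact Submodule.smul_mem _ _ ha

lemma Phi_of_mem_span (v : A) (hv : v ∈ Submodule.span K (Set.range x)) :
    hx.Phi std v = C v * X := by
  induction hv using Submodule.span_induction with
  | mem y hy => obtain ⟨i, rfl⟩ := hy; rw [hx.Phi_x, std, pow_one]
  | zero => simp
  | add a b _ _ ha hb => rw [map_add, ha, hb, C_add, add_mul]
  | smul c a _ ha => rw [map_smul, ha, ← smul_mul_assoc, smul_C]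

/-- After composition with an affine automorphism, the linear part is the identity. -/
lemma exists_affine (θ : A ≃ₐ[K] A) :
    ∃ β : A ≃ₐ[K] A, IsAffine x β ∧ θ * β ∈ hx.U std 1 := by
  classical
  -- the constant terms
  choose c hc using fun i => hx.coeff_zero_Phi (θ (x i))
  have hT1 : ∀ i, hx.map (fun i => x i - algebraMap K A (c i)) (x i + algebraMap K A (c i)) = x i := by
    intro i; simp
  have hT2 : ∀ i, hx.map (fun i => x i + algebraMap K A (c i)) (x i - algebraMap K A (c i)) = x i := by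
    intro i; simp
  set T : A ≃ₐ[K] A := hx.aut _ _ hT1 hT2 with hT
  have hTx : ∀ i, T (x i) = x i - algebraMap K A (c i) := fun i => by rw [hT, hx.aut_x]
  set θ' : A ≃ₐ[K] A := θ * T with hθ'
  have hθ0 : ∀ i, (hx.Phi std (θ' (x i))).coeff 0 = 0 := by
    intro i
    rw [hθ', AlgEquiv.mul_apply, hTx, map_sub, map_sub, coeff_sub, hc, AlgEquiv.commutes,
      hx.Phi_algebraMap]
    simp
  -- constant terms are preserved
  have hcst : ∀ a, (hx.Phi std (θ' a)).coeff 0 = (hx.Phi std a).coeff 0 := by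
    intro a
    induction a using hx.induction with
    | hgen i => rw [hθ0]; simp [std]
    | hs c => rw [AlgEquiv.commutes]
    | hadd a b ha hb => simp only [map_add, coeff_add, ha, hb]
    | hmul a b ha hb => simp only [map_mul, mul_coeff_zero, ha, hb]
  have hcst' : ∀ a, (hx.Phi std (θ'⁻¹ a)).coeff 0 = (hx.Phi std a).coeff 0 := by
    intro a
    rw [← hcst (θ'⁻¹ a), ← AlgEquiv.mul_apply, mul_inv_cancel]
    rfl
  -- linear parts
  have hlin : ∀ (g : A ≃ₐ[K] A), (∀ a, (hx.Phi std (g a)).coeff 0 = (hx.Phi std a).coeff 0) →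
      ∀ a, (hx.Phi std (g a)).coeff 1 =
        hx.map (fun i => (hx.Phi std (g (x i))).coeff 1) ((hx.Phi std a).coeff 1) := by
    intro g hg a
    induction a using hx.induction with
    | hgen i => simp [std]
    | hs c => rw [AlgEquiv.commutes, hx.Phi_algebraMap]; simp
    | hadd a b ha hb => simp only [map_add, coeff_add, ha, hb]
    | hmul a b ha hb =>
      have e : Finset.HasAntidiagonal.antidiagonal (1 : ℕ) = {(0, 1), (1, 0)} := rfl
      obtain ⟨s, hs⟩ := hx.coeff_zero_Phi a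
      obtain ⟨r, hr⟩ := hx.coeff_zero_Phi b
      rw [map_mul, map_mul, map_mul, coeff_mul, coeff_mul, e, Finset.sum_pair (by simp),
        Finset.sum_pair (by simp)]
      simp only [ha, hb, hg, hs, hr, map_add, map_mul, AlgHom.commutes]
  set l : Fin n → A := fun i => (hx.Phi std (θ' (x i))).coeff 1 with hl
  set m : Fin n → A := fun i => (hx.Phi std (θ'⁻¹ (x i))).coeff 1 with hm
  have h1 : ∀ i, hx.map l (m i) = x i := by
    intro i
    have := hlin θ' hcst (θ'⁻¹ (x i))
    rw [← AlgEquiv.mul_apply, mul_inv_cancel] at this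
    rw [← this]
    simp [std]
  have h2 : ∀ i, hx.map m (l i) = x i := by
    intro i
    have := hlin θ'⁻¹ hcst' (θ' (x i))
    rw [← AlgEquiv.mul_apply, inv_mul_cancel] at this
    rw [← this]
    simp [std]
  set B : A ≃ₐ[K] A := hx.aut m l h2 h1 with hB
  have hBx : ∀ i, B (x i) = m i := fun i => by rw [hB, hx.aut_x]
  have hmspan : ∀ i, m i ∈ Submodule.span K (Set.range x) := fun i => hx.coeff_one_Phi _
  refine ⟨T * B, ?_, ?_⟩
  · intro i
    rw [AlgEquiv.mul_apply, hBx]
    have : ∀ v ∈ Submodule.span K (Set.range x), T v ∈ Submodule.span K (insert 1 (Set.range x)) := by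
      intro v hv
      induction hv using Submodule.span_induction with
      | mem y hy =>
        obtain ⟨j, rfl⟩ := hy
        rw [hTx, Algebra.algebraMap_eq_smul_one]
        exact Submodule.sub_mem _ (Submodule.subset_span (Or.inr ⟨j, rfl⟩))
          (Submodule.smul_mem _ _ (Submodule.subset_span (Or.inl rfl)))
      | zero => rw [map_zero]; exact Submodule.zero_mem _
      | add a b _ _ ha hb => rw [map_add]; exact Submodule.add_mem _ ha hb
      | smul c a _ ha => rw [map_smul]; exact Submodule.smul_mem _ _ ha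
    exact this _ (hmspan i)
  · rw [hx.mem_U_iff std 1 le_rfl]
    intro i
    have e : (θ * (T * B)) (x i) = θ' (m i) := by
      rw [← mul_assoc, AlgEquiv.mul_apply, hBx]
    rw [e, X_pow_dvd_iff]
    intro d hd
    simp only [std] at hd
    interval_cases d
    · rw [coeff_sub, hcst, hx.Phi_of_mem_span _ (hmspan i)]
      simp [std]
    · rw [coeff_sub, hlin θ' hcst, hx.Phi_of_mem_span _ (hmspan i)]
      have := h1 i
      simp only [coeff_C_mul, coeff_X_one, mul_one, Phi_x, std, pow_one]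
      rw [← hl, this, sub_self]

/-- Degeneration: an automorphism normalising `TAut` is a limit of tame automorphisms. -/
theorem limitOfTame (ψ : A ≃ₐ[K] A)
    (hψ : ∀ φ, IsAffine x φ → ψ⁻¹ * φ * ψ ∈ TAut K x) : LimitOfTame x ψ := by
  obtain ⟨β, hβ, hη1⟩ := hx.exists_affine ψ⁻¹
  set η : A ≃ₐ[K] A := ψ⁻¹ * β with hη
  have hη2 : η⁻¹ ∈ hx.U std 1 := Subgroup.inv_mem _ hη1
  have key : ∀ g : A ≃ₐ[K] A, g ∈ hx.U std 1 → ∃ 𝒢 : A →ₐ[K] A[X],
      (∀ a, (𝒢 a).eval 0 = a) ∧ ∀ (l : Kˣ) a, (𝒢 a).eval (algebraMap K A (l : K)) =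
        (hx.tor std l * g * (hx.tor std l)⁻¹) a := by
    intro g hg
    obtain ⟨𝒢, h𝒢⟩ := hx.lift (fun i => divX (hx.Phi std (g (x i))))
    have hgx : ∀ i, X ^ 2 ∣ hx.Phi std (g (x i)) - hx.Phi std (x i) :=
      (hx.mem_U_iff std 1 le_rfl g).1 hg
    refine ⟨𝒢, ?_, ?_⟩
    · have h1 : (eval₂AlgHom (AlgHom.id K A) 0 (fun a => Commute.zero_right a)).comp 𝒢 =
          AlgHom.id K A := by
        apply hx.hom_ext
        intro i
        rw [AlgHom.comp_apply, h𝒢]
        have h2 := (X_pow_dvd_iff.1 (hgx i)) 1 (by omega)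
        rw [coeff_sub, hx.Phi_x, std, pow_one, coeff_C_mul, coeff_X_one, mul_one, sub_eq_zero] at h2
        simp only [eval₂AlgHom_apply, AlgHom.coe_id, id_eq]
        rw [show ((AlgHom.id K A : A →ₐ[K] A) : A →+* A) = RingHom.id A from rfl]
        rw [eval₂_id, ← coeff_zero_eq_eval_zero, coeff_divX]
        exact h2
      intro a
      have := AlgHom.congr_fun h1 a
      exact this
    · intro l
      have h1 : (eval₂AlgHom (AlgHom.id K A) (algebraMap K A (l : K))
          (fun a => (Algebra.commutes _ _).symm)).comp 𝒢 =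
          (hx.tor std l * g * (hx.tor std l)⁻¹).toAlgHom := by
        apply hx.hom_ext
        intro i
        rw [AlgHom.comp_apply, h𝒢]
        have h0 := (X_pow_dvd_iff.1 (hgx i)) 0 (by omega)
        have hs : (std : Fin n → ℕ) i = 1 := rfl
        rw [coeff_sub, hx.Phi_x, hs, pow_one, coeff_C_mul, coeff_X_zero, mul_zero, sub_zero] at h0
        have h2 := divX_mul_X_add (hx.Phi std (g (x i)))
        rw [h0, C_0, add_zero] at h2
        have h3 := hx.eval_Phi std l (g (x i))
        rw [← h2, eval_mul_X, ← Algebra.commutes, ← Algebra.smul_def] at h3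
        have h4 : (hx.tor std l * g * (hx.tor std l)⁻¹) (x i) =
            (((l⁻¹ : Kˣ) : K)) • hx.tor std l (g (x i)) := by
          rw [← map_inv, AlgEquiv.mul_apply, AlgEquiv.mul_apply, hx.tor_x, map_smul, map_smul,
            hs, pow_one]
        show _ = (hx.tor std l * g * (hx.tor std l)⁻¹) (x i)
        rw [h4, ← h3, smul_smul, Units.inv_mul, one_smul]
        rfl
      intro a
      exact AlgHom.congr_fun h1 a
  obtain ⟨𝒢, h𝒢0, h𝒢⟩ := key η hη1
  obtain ⟨ℋ, hℋ0, hℋ⟩ := key η⁻¹ hη2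
  have hev : ∀ (g : A ≃ₐ[K] A) (c : K) (p : A[X]), (p.map (g : A →+* A)).eval (algebraMap K A c) =
      g (p.eval (algebraMap K A c)) := by
    intro g c p
    have h1 : (algebraMap K A c) = (g : A →+* A) (algebraMap K A c) := (g.commutes c).symm
    conv_lhs => rw [h1]
    rw [Polynomial.eval_map_apply]
    rfl
  have hev0 : ∀ (g : A ≃ₐ[K] A) (p : A[X]), (p.map (g : A →+* A)).eval 0 = g (p.eval 0) := by
    intro g p
    have := hev g 0 p
    rw [map_zero] at this
    exact this
  have hS : ∀ φ ∈ Subgroup.closure {φ : A ≃ₐ[K] A | IsAffine x φ}, ψ⁻¹ * φ * ψ ∈ TAut K x := by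
    intro φ hφ
    induction hφ using Subgroup.closure_induction with
    | mem φ h => exact hψ φ h
    | one => simp
    | mul a b _ _ ha hb =>
      have := Subgroup.mul_mem _ ha hb
      simpa [mul_assoc] using this
    | inv a _ ha =>
      have := Subgroup.inv_mem _ ha
      simpa [mul_assoc] using this
  refine ⟨fun i => (𝒢 (η⁻¹ (x i))).map (β : A →+* A), fun i => (ℋ (β⁻¹ (x i))).map (η : A →+* A),
    ?_, ?_, ?_⟩
  · intro i
    show ((𝒢 (η⁻¹ (x i))).map (β : A →+* A)).eval 0 = _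
    rw [hev0, h𝒢0, ← AlgEquiv.mul_apply, hη, mul_inv_rev, inv_inv, mul_inv_cancel_left]
  · intro i
    show ((ℋ (β⁻¹ (x i))).map (η : A →+* A)).eval 0 = _
    rw [hev0, hℋ0, ← AlgEquiv.mul_apply, hη, mul_assoc, mul_inv_cancel, mul_one]
  · intro l0 hl0
    obtain ⟨l, rfl⟩ : ∃ l : Kˣ, (l : K) = l0 := ⟨Units.mk0 l0 hl0, rfl⟩
    set h := hx.tor std l with hh
    have hhaff : IsAffine x h := by
      intro i
      rw [hh, hx.tor_x]
      exact Submodule.smul_mem _ _ (Submodule.subset_span (Or.inr ⟨i, rfl⟩))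
    have htame : η * h⁻¹ * η⁻¹ ∈ TAut K x := by
      have h1 : β * h⁻¹ * β⁻¹ ∈ Subgroup.closure {φ : A ≃ₐ[K] A | IsAffine x φ} :=
        Subgroup.mul_mem _ (Subgroup.mul_mem _ (Subgroup.subset_closure hβ)
          (Subgroup.inv_mem _ (Subgroup.subset_closure hhaff)))
          (Subgroup.inv_mem _ (Subgroup.subset_closure hβ))
      have h2 := hS _ h1
      rw [hη]
      simpa [mul_assoc] using h2
    refine ⟨β * (h * (η * h⁻¹ * η⁻¹)), Subgroup.mul_mem _ hβ.mem
      (Subgroup.mul_mem _ hhaff.mem htame), ?_, ?_⟩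
    · intro i
      show ((𝒢 (η⁻¹ (x i))).map (β : A →+* A)).eval _ = _
      rw [hev, h𝒢]
      simp only [AlgEquiv.mul_apply]
      rfl
    · intro i
      show ((ℋ (β⁻¹ (x i))).map (η : A →+* A)).eval _ = _
      rw [hev, hℋ]
      have : (β * (h * (η * h⁻¹ * η⁻¹)))⁻¹ = η * (h * η⁻¹ * h⁻¹) * β⁻¹ := by group
      rw [this]
      simp only [AlgEquiv.mul_apply]
      rfl

end FreeOn

/-- Formal approximation without any restriction. -/
theorem FreeOn.exists_tame_formal {A : Type u} [Ring A] [Algebra K A] {n : ℕ} {x : Fin n → A}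
    [Infinite K] (hx : FreeOn K x) (ψ : A ≃ₐ[K] A) (hψ : Normalizes x ψ) (k : ℕ) :
    ∃ τ ∈ TAut K x, ∀ i, (τ⁻¹ * ψ) (x i) - x i ∈ weightGE K x (fun _ => 1) (k + 1) := by
  obtain ⟨β, hβ, hη⟩ := hx.exists_affine ψ⁻¹
  have h1 : β⁻¹ * ψ ∈ hx.U std 1 := by
    have := Subgroup.inv_mem _ hη
    simpa using this
  have h2 := Normalizes.mul_left hψ hβ.mem
  obtain ⟨τ, hτ, _, hmem⟩ := hx.exists_tame_near std (hx.U std 1)
    (fun l g hg _ => hx.tor_Near std 1 l g (hg le_rfl)) le_rfl (β⁻¹ * ψ) h1 h2 k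
  refine ⟨β * τ, Subgroup.mul_mem _ hβ.mem hτ, fun i => ?_⟩
  have h3 := (hx.mem_U_iff std (k + 1) (by omega) _).1 hmem i
  have h4 : (β * τ)⁻¹ * ψ = τ⁻¹ * (β⁻¹ * ψ) := by group
  rw [h4]
  refine (hx.mem_weightGE_iff (fun _ => 1) (k + 1) _).2 ?_
  rw [map_sub]
  refine (pow_dvd_pow X ?_).trans h3
  simp only [std]
  omega

end Pool.Agent.Lib.MP_e1f7e2_al
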