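import Pool.Agent.Lib.MP_e1f7e2_al.Degenerate

set_option autoImplicit false

/-!
Families of automorphisms to which the result on groups of bounded degree applies.
-/

namespace Pool.Agent.Lib.MP_e1f7e2_al

open Polynomial

universe u v

variable {K : Type u} [Field K]

/-- Additive families which are homogeneous for a one-parameter group. -/
theorem FreeOn.family {A : Type u} [Ring A] [Algebra K A] {n : ℕ} {x : Fin n → A} [Infinite K]
    (hx : FreeOn K x) (w : Fin n → ℕ) (S : Subalgebra K A) (ρ : A → (A →ₐ[K] A))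
    (h0 : ρ 0 = AlgHom.id K A)
    (hadd : ∀ F ∈ S, ∀ G ∈ S, (ρ F).comp (ρ G) = ρ (F + G)) (c : ℕ)
    (htor : ∀ l : Kˣ, ∀ F ∈ S, ∀ i,
      hx.tor w l (ρ F (x i)) = ((l : K) ^ w i) • ρ (((l : K) ^ c) • hx.tor w l F) (x i))
    (hS : ∀ l : Kˣ, ∀ F ∈ S, hx.tor w l F ∈ S)
    (h1 : ∀ F ∈ S, ∀ i, X ^ (w i + 1) ∣ hx.Phi w (ρ F (x i)) - hx.Phi w (x i))
    (hb : ∀ N, ∃ M, ∀ F ∈ S, (hx.Phi w F).natDegree ≤ N → ∀ i, (hx.Phi w (ρ F (x i))).natDegree ≤ M)
    (F : A) (hF : F ∈ S) (ψ : A ≃ₐ[K] A) (hψF : ∀ i, ψ (x i) = ρ F (x i))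
    (hψ : Normalizes x ψ) : ψ ∈ TAut K x := by
  set N := (hx.Phi w F).natDegree with hN
  obtain ⟨M, hM⟩ := hb N
  let G : Subgroup (A ≃ₐ[K] A) :=
    { carrier := {g | ∃ F ∈ S, (hx.Phi w F).natDegree ≤ N ∧ g.toAlgHom = ρ F}
      one_mem' := ⟨0, S.zero_mem, by simp, by rw [h0]; rfl⟩
      mul_mem' := by
        rintro g h ⟨F, hF, hFN, hg⟩ ⟨F', hF', hFN', hh⟩
        refine ⟨F + F', S.add_mem hF hF', ?_, ?_⟩
        · rw [map_add]; exact (natDegree_add_le _ _).trans (max_le hFN hFN')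
        · rw [← hadd F hF F' hF', ← hg, ← hh]
          rfl
      inv_mem' := by
        rintro g ⟨F, hF, hFN, hg⟩
        refine ⟨-F, S.neg_mem hF, ?_, ?_⟩
        · rw [map_neg, natDegree_neg]; exact hFN
        · have h2 := hadd (-F) (S.neg_mem hF) F hF
          rw [neg_add_cancel, h0] at h2
          apply AlgHom.ext
          intro a
          have h3 := AlgHom.congr_fun h2 (g⁻¹ a)
          have h4 : ρ F (g⁻¹ a) = a := by
            rw [← hg]
            show g (g⁻¹ a) = a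
            rw [← AlgEquiv.mul_apply, mul_inv_cancel]; rfl
          rw [AlgHom.comp_apply, h4] at h3
          exact h3.symm }
  have hGiff : ∀ g, g ∈ G ↔ ∃ F ∈ S, (hx.Phi w F).natDegree ≤ N ∧ g.toAlgHom = ρ F :=
    fun g => Iff.rfl
  refine hx.mem_of_bounded w G ?_ ?_ M ?_ ψ ?_ hψ
  · intro l g hg
    obtain ⟨F, hF, hFN, hg⟩ := (hGiff g).1 hg
    refine (hGiff _).2 ⟨((l : K) ^ c) • hx.tor w l F, S.smul_mem (hS l F hF) _, ?_, ?_⟩
    · rw [map_smul]
      refine (natDegree_smul_le _ _).trans ?_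
      rw [natDegree_le_iff_coeff_eq_zero]
      intro d hd
      rw [hx.coeff_Phi_tor, coeff_eq_zero_of_natDegree_lt (by omega), smul_zero]
    · apply hx.hom_ext
      intro i
      show (hx.tor w l * g * (hx.tor w l)⁻¹) (x i) = _
      have h5 : g (x i) = ρ F (x i) := AlgHom.congr_fun hg (x i)
      rw [← map_inv, AlgEquiv.mul_apply, AlgEquiv.mul_apply, hx.tor_x, map_smul, map_smul, h5,
        htor l F hF i, smul_smul, ← mul_pow, Units.inv_mul, one_pow, one_smul]
  · intro g hg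
    obtain ⟨F, hF, _, hg⟩ := (hGiff g).1 hg
    rw [hx.mem_U_iff w 1 le_rfl]
    intro i
    have h5 : g (x i) = ρ F (x i) := AlgHom.congr_fun hg (x i)
    rw [h5]
    exact h1 F hF i
  · intro g hg i
    obtain ⟨F, hF, hFN, hg⟩ := (hGiff g).1 hg
    have h5 : g (x i) = ρ F (x i) := AlgHom.congr_fun hg (x i)
    rw [h5]
    exact hM F hF hFN i
  · exact (hGiff ψ).2 ⟨F, hF, le_rfl, hx.hom_ext hψF⟩

section Nagata

lemma nag_dvd0 {R : Type*} [CommRing R] (a b c t f : R) :
    t ^ (0 + 1) ∣ a - 2 * (b * t) * f - c * t ^ 2 * f ^ 2 - a :=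
  ⟨-2 * b * f - c * t * f ^ 2, by ring⟩

lemma nag_dvd1 {R : Type*} [CommRing R] (b c t f : R) :
    t ^ (1 + 1) ∣ b * t + c * t ^ 2 * f - b * t :=
  ⟨c * f, by ring⟩

lemma nag_deg0 {R : Type*} [CommRing R] (a b c : R) (N : ℕ) (f : R[X]) (hf : f.natDegree ≤ N) :
    (C a - 2 * (C b * X) * f - C c * X ^ 2 * f ^ 2 : R[X]).natDegree ≤ 2 * N + 2 := by
  refine (natDegree_sub_le _ _).trans (max_le ((natDegree_sub_le _ _).trans (max_le ?_ ?_)) ?_)
  · simp
  · refine natDegree_mul_le.trans ?_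
    have h1 : (2 * (C b * X) : R[X]).natDegree ≤ 1 := by
      have : (2 * (C b * X) : R[X]) = C (2 * b) * X := by rw [map_mul, map_ofNat]; ring
      rw [this]
      exact (natDegree_C_mul_le _ _).trans natDegree_X_le
    omega
  · refine natDegree_mul_le.trans ?_
    have h1 := natDegree_C_mul_X_pow_le c 2
    have h2 : (f ^ 2).natDegree ≤ 2 * N := natDegree_pow_le_of_le 2 hf
    omega

lemma nag_deg1 {R : Type*} [CommRing R] (b c : R) (N : ℕ) (f : R[X]) (hf : f.natDegree ≤ N) :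
    (C b * X + C c * X ^ 2 * f : R[X]).natDegree ≤ 2 * N + 2 := by
  refine (natDegree_add_le _ _).trans (max_le ?_ ?_)
  · exact ((natDegree_C_mul_le _ _).trans natDegree_X_le).trans (by omega)
  · refine natDegree_mul_le.trans ?_
    have h1 := natDegree_C_mul_X_pow_le c 2
    omega

/-- The Nagata type automorphisms. -/
theorem nagata [Infinite K] (F : MvPolynomial (Fin 3) K)
    (hF : F ∈ Algebra.adjoin K {MvPolynomial.X 2, MvPolynomial.X 0 * MvPolynomial.X 2 +
      MvPolynomial.X 1 ^ 2})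
    (ψ : MvPolynomial (Fin 3) K ≃ₐ[K] MvPolynomial (Fin 3) K)
    (h0 : ψ (MvPolynomial.X 0) = MvPolynomial.X 0 - 2 * MvPolynomial.X 1 * F -
      MvPolynomial.X 2 * F ^ 2)
    (h1 : ψ (MvPolynomial.X 1) = MvPolynomial.X 1 + MvPolynomial.X 2 * F)
    (h2 : ψ (MvPolynomial.X 2) = MvPolynomial.X 2)
    (hψ : Normalizes (MvPolynomial.X : Fin 3 → MvPolynomial (Fin 3) K) ψ) :
    ψ ∈ TAut K (MvPolynomial.X : Fin 3 → MvPolynomial (Fin 3) K) := by
  set x : MvPolynomial (Fin 3) K := MvPolynomial.X 0 with hx0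
  set y : MvPolynomial (Fin 3) K := MvPolynomial.X 1 with hy0
  set z : MvPolynomial (Fin 3) K := MvPolynomial.X 2 with hz0
  set S := Algebra.adjoin K {z, x * z + y ^ 2} with hS
  have hx := freeOn_mvPolynomial K 3
  let ρ : MvPolynomial (Fin 3) K → (MvPolynomial (Fin 3) K →ₐ[K] MvPolynomial (Fin 3) K) :=
    fun F => MvPolynomial.aeval ![x - 2 * y * F - z * F ^ 2, y + z * F, z]
  have hρ0 : ∀ F, ρ F x = x - 2 * y * F - z * F ^ 2 := fun F => by simp [ρ, x]
  have hρ1 : ∀ F, ρ F y = y + z * F := fun F => by simp [ρ, y]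
  have hρ2 : ∀ F, ρ F z = z := fun F => by simp [ρ, z]
  have hfix : ∀ F, ∀ G ∈ S, ρ F G = G := by
    intro F G hG
    induction hG using Algebra.adjoin_induction with
    | mem a ha =>
      rcases ha with rfl | rfl
      · exact hρ2 F
      · rw [map_add, map_mul, map_pow, hρ0, hρ1, hρ2]
        ring
    | algebraMap c => rw [AlgHom.commutes]
    | add a b _ _ ha hb => rw [map_add, ha, hb]
    | mul a b _ _ ha hb => rw [map_mul, ha, hb]
  let w : Fin 3 → ℕ := ![0, 1, 2]
  have ht0 : ∀ l : Kˣ, hx.tor w l x = x := fun l => by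
    refine (hx.tor_x w l 0).trans ?_
    show ((l : K) ^ 0) • x = x
    rw [pow_zero, one_smul]
  have ht1 : ∀ l : Kˣ, hx.tor w l y = (l : K) • y := fun l => by
    refine (hx.tor_x w l 1).trans ?_
    show ((l : K) ^ 1) • y = _
    rw [pow_one]
  have ht2 : ∀ l : Kˣ, hx.tor w l z = ((l : K) ^ 2) • z := fun l => hx.tor_x w l 2
  have hP0 : hx.Phi w x = Polynomial.C x := by
    refine (hx.Phi_x w 0).trans ?_
    show Polynomial.C x * X ^ 0 = _
    rw [pow_zero, mul_one]
  have hP1 : hx.Phi w y = Polynomial.C y * X := by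
    refine (hx.Phi_x w 1).trans ?_
    show Polynomial.C y * X ^ 1 = _
    rw [pow_one]
  have hP2 : hx.Phi w z = Polynomial.C z * X ^ 2 := hx.Phi_x w 2
  have hw0 : w 0 = 0 := rfl
  have hw1 : w 1 = 1 := rfl
  have hw2 : w 2 = 2 := rfl
  clear_value w
  refine hx.family w S ρ ?_ ?_ 1 ?_ ?_ ?_ ?_ F hF ψ ?_ hψ
  · apply MvPolynomial.algHom_ext
    intro i
    fin_cases i
    · show ρ 0 x = x
      rw [hρ0]; ring
    · show ρ 0 y = y
      rw [hρ1]; ring
    · show ρ 0 z = z
      rw [hρ2]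
  · intro F hF G hG
    apply MvPolynomial.algHom_ext
    intro i
    fin_cases i
    · show ρ F (ρ G x) = ρ (F + G) x
      rw [hρ0, hρ0]
      simp only [map_sub, map_mul, map_pow, hfix F G hG, hρ0, hρ1, hρ2, map_ofNat]
      ring
    · show ρ F (ρ G y) = ρ (F + G) y
      rw [hρ1, hρ1]
      simp only [map_add, map_mul, hfix F G hG, hρ1, hρ2]
      ring
    · show ρ F (ρ G z) = ρ (F + G) z
      rw [hρ2, hρ2, hρ2]
  · intro l F hF i
    have e0 : hx.tor w l (ρ F x) = ((l : K) ^ w 0) • ρ (((l : K) ^ 1) • hx.tor w l F) x := by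
      rw [hρ0, hρ0, hw0]
      simp only [map_sub, map_mul, map_pow, ht0, ht1, ht2, map_ofNat, MvPolynomial.smul_eq_C_mul]
      ring
    have e1 : hx.tor w l (ρ F y) = ((l : K) ^ w 1) • ρ (((l : K) ^ 1) • hx.tor w l F) y := by
      rw [hρ1, hρ1, hw1]
      simp only [map_add, map_mul, ht1, ht2, MvPolynomial.smul_eq_C_mul, map_pow]
      ring
    have e2 : hx.tor w l (ρ F z) = ((l : K) ^ w 2) • ρ (((l : K) ^ 1) • hx.tor w l F) z := by
      rw [hρ2, hρ2, ht2, hw2]
    fin_cases i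
    · exact e0
    · exact e1
    · exact e2
  · intro l F hF
    induction hF using Algebra.adjoin_induction with
    | mem a ha =>
      rcases ha with rfl | rfl
      · rw [ht2]; exact S.smul_mem (Algebra.subset_adjoin (Or.inl rfl)) _
      · have : hx.tor w l (x * z + y ^ 2) = ((l : K) ^ 2) • (x * z + y ^ 2) := by
          rw [map_add, map_mul, map_pow, ht0, ht1, ht2]
          simp only [MvPolynomial.smul_eq_C_mul, map_pow]
          ring
        rw [this]
        exact S.smul_mem (Algebra.subset_adjoin (Or.inr rfl)) _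
    | algebraMap c => rw [AlgEquiv.commutes]; exact S.algebraMap_mem c
    | add a b _ _ ha hb => rw [map_add]; exact S.add_mem ha hb
    | mul a b _ _ ha hb => rw [map_mul]; exact S.mul_mem ha hb
  · intro F hF i
    have e0 : X ^ (w 0 + 1) ∣ hx.Phi w (ρ F x) - hx.Phi w x := by
      rw [hρ0, hw0]
      simp only [map_sub, map_mul, map_pow, hP0, hP1, hP2, map_ofNat]
      exact nag_dvd0 _ _ _ _ _
    have e1 : X ^ (w 1 + 1) ∣ hx.Phi w (ρ F y) - hx.Phi w y := by
      rw [hρ1, hw1]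
      simp only [map_add, map_mul, hP1, hP2]
      exact nag_dvd1 _ _ _ _
    have e2 : X ^ (w 2 + 1) ∣ hx.Phi w (ρ F z) - hx.Phi w z := by
      rw [hρ2, sub_self]
      exact dvd_zero _
    fin_cases i
    · exact e0
    · exact e1
    · exact e2
  · intro N
    refine ⟨2 * N + 2, ?_⟩
    intro F hF hN i
    have e0 : (hx.Phi w (ρ F x)).natDegree ≤ 2 * N + 2 := by
      rw [hρ0]
      simp only [map_sub, map_mul, map_pow, hP0, hP1, hP2, map_ofNat]
      exact nag_deg0 _ _ _ N _ hN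
    have e1 : (hx.Phi w (ρ F y)).natDegree ≤ 2 * N + 2 := by
      rw [hρ1]
      simp only [map_add, map_mul, hP1, hP2]
      exact nag_deg1 _ _ N _ hN
    have e2 : (hx.Phi w (ρ F z)).natDegree ≤ 2 * N + 2 := by
      rw [hρ2, hP2]
      exact (natDegree_C_mul_X_pow_le _ _).trans (by omega)
    fin_cases i
    · exact e0
    · exact e1
    · exact e2
  · intro i
    fin_cases i
    · show ψ x = ρ F x
      rw [hρ0, h0]
    · show ψ y = ρ F y
      rw [hρ1, h1]
    · show ψ z = ρ F z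
      rw [hρ2, h2]

end Nagata

section Anick

/-- The Anick type automorphisms of the free associative algebra. -/
theorem anick [Infinite K] (f : FreeAlgebra K (Fin 3))
    (hf : f ∈ Algebra.adjoin K {FreeAlgebra.ι K (2 : Fin 3),
      FreeAlgebra.ι K (0 : Fin 3) * FreeAlgebra.ι K 2 -
      FreeAlgebra.ι K 2 * FreeAlgebra.ι K (1 : Fin 3)})
    (ψ : FreeAlgebra K (Fin 3) ≃ₐ[K] FreeAlgebra K (Fin 3))
    (h0 : ψ (FreeAlgebra.ι K 0) = FreeAlgebra.ι K 0 + FreeAlgebra.ι K 2 * f)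
    (h1 : ψ (FreeAlgebra.ι K 1) = FreeAlgebra.ι K 1 + f * FreeAlgebra.ι K 2)
    (h2 : ψ (FreeAlgebra.ι K 2) = FreeAlgebra.ι K 2)
    (hψ : Normalizes (FreeAlgebra.ι K : Fin 3 → FreeAlgebra K (Fin 3)) ψ) :
    ψ ∈ TAut K (FreeAlgebra.ι K : Fin 3 → FreeAlgebra K (Fin 3)) := by
  set x : FreeAlgebra K (Fin 3) := FreeAlgebra.ι K 0 with hx0
  set y : FreeAlgebra K (Fin 3) := FreeAlgebra.ι K 1 with hy0
  set z : FreeAlgebra K (Fin 3) := FreeAlgebra.ι K 2 with hz0
  set S := Algebra.adjoin K {z, x * z - z * y} with hS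
  have hx := freeOn_freeAlgebra K 3
  let ρ : FreeAlgebra K (Fin 3) → (FreeAlgebra K (Fin 3) →ₐ[K] FreeAlgebra K (Fin 3)) :=
    fun f => FreeAlgebra.lift K ![x + z * f, y + f * z, z]
  have hρ0 : ∀ f, ρ f x = x + z * f := fun f => by simp [ρ, x]
  have hρ1 : ∀ f, ρ f y = y + f * z := fun f => by simp [ρ, y]
  have hρ2 : ∀ f, ρ f z = z := fun f => by simp [ρ, z]
  have hfix : ∀ f, ∀ g ∈ S, ρ f g = g := by
    intro f g hg
    induction hg using Algebra.adjoin_induction with
    | mem a ha =>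
      rcases ha with rfl | rfl
      · exact hρ2 f
      · rw [map_sub, map_mul, map_mul, hρ0, hρ1, hρ2]
        noncomm_ring
    | algebraMap c => rw [AlgHom.commutes]
    | add a b _ _ ha hb => rw [map_add, ha, hb]
    | mul a b _ _ ha hb => rw [map_mul, ha, hb]
  let w : Fin 3 → ℕ := ![0, 0, 1]
  have ht0 : ∀ l : Kˣ, hx.tor w l x = x := fun l => by
    refine (hx.tor_x w l 0).trans ?_
    show ((l : K) ^ 0) • x = x
    rw [pow_zero, one_smul]
  have ht1 : ∀ l : Kˣ, hx.tor w l y = y := fun l => by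
    refine (hx.tor_x w l 1).trans ?_
    show ((l : K) ^ 0) • y = _
    rw [pow_zero, one_smul]
  have ht2 : ∀ l : Kˣ, hx.tor w l z = (l : K) • z := fun l => by
    refine (hx.tor_x w l 2).trans ?_
    show ((l : K) ^ 1) • z = _
    rw [pow_one]
  have hP0 : hx.Phi w x = Polynomial.C x := by
    refine (hx.Phi_x w 0).trans ?_
    show Polynomial.C x * X ^ 0 = _
    rw [pow_zero, mul_one]
  have hP1 : hx.Phi w y = Polynomial.C y := by
    refine (hx.Phi_x w 1).trans ?_
    show Polynomial.C y * X ^ 0 = _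
    rw [pow_zero, mul_one]
  have hP2 : hx.Phi w z = Polynomial.C z * X := by
    refine (hx.Phi_x w 2).trans ?_
    show Polynomial.C z * X ^ 1 = _
    rw [pow_one]
  have hw0 : w 0 = 0 := rfl
  have hw1 : w 1 = 0 := rfl
  have hw2 : w 2 = 1 := rfl
  clear_value w
  refine hx.family w S ρ ?_ ?_ 1 ?_ ?_ ?_ ?_ f hf ψ ?_ hψ
  · apply hx.hom_ext
    intro i
    have e0 : ρ 0 x = x := by rw [hρ0, mul_zero, add_zero]
    have e1 : ρ 0 y = y := by rw [hρ1, zero_mul, add_zero]
    have e2 : ρ 0 z = z := hρ2 0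
    fin_cases i
    · exact e0
    · exact e1
    · exact e2
  · intro f hf g hg
    apply hx.hom_ext
    intro i
    have e0 : ρ f (ρ g x) = ρ (f + g) x := by
      rw [hρ0, hρ0, map_add, map_mul, hfix f g hg, hρ0, hρ2, mul_add, add_assoc]
    have e1 : ρ f (ρ g y) = ρ (f + g) y := by
      rw [hρ1, hρ1, map_add, map_mul, hfix f g hg, hρ1, hρ2, add_mul, add_assoc]
    have e2 : ρ f (ρ g z) = ρ (f + g) z := by rw [hρ2, hρ2, hρ2]
    fin_cases i
    · exact e0
    · exact e1
    · exact e2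
  · intro l f hf i
    have e0 : hx.tor w l (ρ f x) = ((l : K) ^ w 0) • ρ (((l : K) ^ 1) • hx.tor w l f) x := by
      rw [hρ0, hρ0, hw0, map_add, map_mul, ht0, ht2, pow_zero, one_smul, pow_one, smul_mul_assoc,
        mul_smul_comm]
    have e1 : hx.tor w l (ρ f y) = ((l : K) ^ w 1) • ρ (((l : K) ^ 1) • hx.tor w l f) y := by
      rw [hρ1, hρ1, hw1, map_add, map_mul, ht1, ht2, pow_zero, one_smul, pow_one, smul_mul_assoc,
        mul_smul_comm]
    have e2 : hx.tor w l (ρ f z) = ((l : K) ^ w 2) • ρ (((l : K) ^ 1) • hx.tor w l f) z := by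
      rw [hρ2, hρ2, ht2, hw2, pow_one]
    fin_cases i
    · exact e0
    · exact e1
    · exact e2
  · intro l f hf
    induction hf using Algebra.adjoin_induction with
    | mem a ha =>
      rcases ha with rfl | rfl
      · rw [ht2]; exact S.smul_mem (Algebra.subset_adjoin (Or.inl rfl)) _
      · have : hx.tor w l (x * z - z * y) = (l : K) • (x * z - z * y) := by
          rw [map_sub, map_mul, map_mul, ht0, ht1, ht2, smul_sub, mul_smul_comm, smul_mul_assoc]
        rw [this]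
        exact S.smul_mem (Algebra.subset_adjoin (Or.inr rfl)) _
    | algebraMap c => rw [AlgEquiv.commutes]; exact S.algebraMap_mem c
    | add a b _ _ ha hb => rw [map_add]; exact S.add_mem ha hb
    | mul a b _ _ ha hb => rw [map_mul]; exact S.mul_mem ha hb
  · intro f hf i
    have e0 : X ^ (w 0 + 1) ∣ hx.Phi w (ρ f x) - hx.Phi w x := by
      rw [hρ0, hw0, map_add, map_mul, hP0, hP2, add_sub_cancel_left, zero_add, pow_one]
      exact ⟨Polynomial.C z * hx.Phi w f, by rw [← mul_assoc, X_mul_C]⟩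
    have e1 : X ^ (w 1 + 1) ∣ hx.Phi w (ρ f y) - hx.Phi w y := by
      rw [hρ1, hw1, map_add, map_mul, hP1, hP2, add_sub_cancel_left, zero_add, pow_one]
      exact ⟨hx.Phi w f * Polynomial.C z, by rw [← mul_assoc, X_mul]⟩
    have e2 : X ^ (w 2 + 1) ∣ hx.Phi w (ρ f z) - hx.Phi w z := by
      rw [hρ2, sub_self]
      exact dvd_zero _
    fin_cases i
    · exact e0
    · exact e1
    · exact e2
  · intro N
    refine ⟨N + 1, ?_⟩
    intro f hf hN i
    have hz : (Polynomial.C z * X : (FreeAlgebra K (Fin 3))[X]).natDegree ≤ 1 :=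
      (natDegree_C_mul_le _ _).trans natDegree_X_le
    have e0 : (hx.Phi w (ρ f x)).natDegree ≤ N + 1 := by
      rw [hρ0, map_add, map_mul, hP0, hP2]
      refine (natDegree_add_le _ _).trans (max_le ?_ ?_)
      · rw [natDegree_C]; omega
      · refine natDegree_mul_le.trans ?_
        omega
    have e1 : (hx.Phi w (ρ f y)).natDegree ≤ N + 1 := by
      rw [hρ1, map_add, map_mul, hP1, hP2]
      refine (natDegree_add_le _ _).trans (max_le ?_ ?_)
      · rw [natDegree_C]; omega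
      · refine natDegree_mul_le.trans ?_
        omega
    have e2 : (hx.Phi w (ρ f z)).natDegree ≤ N + 1 := by
      rw [hρ2, hP2]
      omega
    fin_cases i
    · exact e0
    · exact e1
    · exact e2
  · intro i
    have e0 : ψ x = ρ f x := by rw [hρ0, h0]
    have e1 : ψ y = ρ f y := by rw [hρ1, h1]
    have e2 : ψ z = ρ f z := by rw [hρ2, h2]
    fin_cases i
    · exact e0
    · exact e1
    · exact e2

end Anick

end Pool.Agent.Lib.MP_e1f7e2_al
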