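import Mathlib

set_option autoImplicit false

/-!
A group theoretic lemma: elements of torus stable solvable groups without zero weights which
normalise a subgroup `H` containing the torus lie in `H`.
-/

namespace Pool.Agent.Lib.MP_e1f7e2_al

universe u v

variable {K : Type u} [Field K]

/-- The action of `λ ∈ Kˣ` on a `ℤ`-graded vector space `⨁ W`, the component of degree `d` being
multiplied by `λ ^ d`. -/
noncomputable def wact {W : Type*} [AddCommGroup W] [Module K W] (l : Kˣ) (m : ℤ →₀ W) : ℤ →₀ W :=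
  Finsupp.onFinset m.support (fun d => ((l ^ d : Kˣ) : K) • m d) (by
    intro d hd
    rw [Finsupp.mem_support_iff]
    intro h
    apply hd
    rw [h, smul_zero])

section

variable {W : Type*} [AddCommGroup W] [Module K W]

@[simp] lemma wact_apply (l : Kˣ) (m : ℤ →₀ W) (d : ℤ) :
    wact l m d = ((l ^ d : Kˣ) : K) • m d := rfl

lemma wact_add (l : Kˣ) (m m' : ℤ →₀ W) : wact l (m + m') = wact l m + wact l m' := by
  ext d
  simp [smul_add]

lemma wact_sub (l : Kˣ) (m m' : ℤ →₀ W) : wact l (m - m') = wact l m - wact l m' := by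
  ext d
  simp [smul_sub]

lemma wact_mul (l l' : Kˣ) (m : ℤ →₀ W) : wact (l * l') m = wact l (wact l' m) := by
  ext d
  simp [mul_zpow, mul_smul]

lemma wact_comm (l l' : Kˣ) (m : ℤ →₀ W) : wact l (wact l' m) = wact l' (wact l m) := by
  rw [← wact_mul, ← wact_mul, mul_comm]

/-- The operator `(λ - 1) ^ k`. -/
noncomputable def dif (l : Kˣ) : ℕ → (ℤ →₀ W) → (ℤ →₀ W)
  | 0, m => m
  | k + 1, m => wact l (dif l k m) - dif l k m

lemma dif_apply (l : Kˣ) (k : ℕ) (m : ℤ →₀ W) (d : ℤ) :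
    dif l k m d = (((l ^ d : Kˣ) : K) - 1) ^ k • m d := by
  induction k with
  | zero => simp [dif]
  | succ k ih =>
    simp only [dif, Finsupp.sub_apply, wact_apply, ih, pow_succ', sub_smul, mul_smul, one_smul]

lemma dif_comm (l l' : Kˣ) (k : ℕ) (m : ℤ →₀ W) : wact l' (dif l k m) = dif l k (wact l' m) := by
  ext d
  simp only [wact_apply, dif_apply, smul_smul]
  rw [mul_comm]

lemma dif_sub (l : Kˣ) (k : ℕ) (m m' : ℤ →₀ W) : dif l k (m - m') = dif l k m - dif l k m' := by
  ext d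
  simp [dif_apply, smul_sub]

variable (G : AddSubgroup (ℤ →₀ W)) (hG : ∀ (l : Kˣ), ∀ m ∈ G, wact l m ∈ G)

include hG in
lemma dif_mem (l : Kˣ) (m : ℤ →₀ W) (hm : ∀ l : Kˣ, wact l m - m ∈ G) (k : ℕ) (hk : 1 ≤ k) :
    dif l k m ∈ G := by
  induction k, hk using Nat.le_induction with
  | base => exact hm l
  | succ k _ ih => exact G.sub_mem (hG l _ ih) ih

/-- In an infinite field there is `λ` with `λ ^ d ≠ 1`, if `d ≠ 0`. -/
lemma exists_zpow_ne_one [Infinite K] (d : ℤ) (hd : d ≠ 0) : ∃ l : Kˣ, l ^ d ≠ 1 := by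
  classical
  by_contra hcon
  push Not at hcon
  have h1 : ∀ l : Kˣ, l ^ d.natAbs = 1 := by
    intro l
    have := hcon l
    rcases Int.natAbs_eq d with h | h
    · rw [h] at this
      exact_mod_cast this
    · rw [h, zpow_neg, inv_eq_one] at this
      exact_mod_cast this
  have h2 : Set.Finite {x : K | x ^ d.natAbs = 1} := by
    have h3 : (Polynomial.X ^ d.natAbs - 1 : Polynomial K) ≠ 0 := by
      have := Polynomial.X_pow_sub_C_ne_zero (R := K) (Int.natAbs_pos.2 hd) 1
      simpa using this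
    refine Set.Finite.subset (Polynomial.X ^ d.natAbs - 1 : Polynomial K).roots.toFinset.finite_toSet ?_
    intro x hx
    have hx' : x ^ d.natAbs = 1 := hx
    simp [h3, hx', sub_eq_zero]
  have h4 : (Set.univ : Set K) ⊆ insert 0 {x : K | x ^ d.natAbs = 1} := by
    intro x _
    by_cases hx : x = 0
    · left; exact hx
    · right
      have := congrArg (fun u : Kˣ => (u : K)) (h1 (Units.mk0 x hx))
      simpa using this
  exact Set.infinite_univ ((h2.insert 0).subset h4)

include hG in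
/-- The key lemma: if all `λ m - m` are in `G` and `m` has no component of weight zero, then `m`
is in `G`. -/
theorem mem_of_dif_mem [Infinite K] : ∀ (c : ℕ) (m : ℤ →₀ W), m.support.card = c → m 0 = 0 →
    (∀ l : Kˣ, wact l m - m ∈ G) → m ∈ G := by
  intro c
  induction c using Nat.strong_induction_on with
  | _ c ih =>
    intro m hc h0 hm
    by_cases hs : m = 0
    · rw [hs]; exact G.zero_mem
    obtain ⟨d, hd⟩ : ∃ d, d ∈ m.support := Finsupp.support_nonempty_iff.2 hs
    have hd' := Finsupp.mem_support_iff.1 hd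
    have hd0 : d ≠ 0 := by
      rintro rfl
      exact hd' h0
    obtain ⟨l, hl⟩ := exists_zpow_ne_one (K := K) |d| (abs_ne_zero.2 hd0)
    -- arrange a positive exponent
    obtain ⟨l, k, hk1, hk, hne⟩ : ∃ (l : Kˣ) (k : ℕ), 1 ≤ k ∧
        (∀ u : Kˣ, ∃ u' : Kˣ, u' ^ d = u ^ k) ∧ (((l ^ d : Kˣ) : K) - 1) ≠ 0 := by
      rcases abs_cases d with ⟨h, h'⟩ | ⟨h, h'⟩
      · refine ⟨l, d.toNat, by omega, fun u => ⟨u, ?_⟩, ?_⟩
        · have : (d.toNat : ℤ) = d := Int.toNat_of_nonneg h'
          rw [← zpow_natCast, this]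
        · rw [h] at hl
          intro h2
          apply hl
          rw [sub_eq_zero] at h2
          exact Units.ext h2
      · refine ⟨l⁻¹, (-d).toNat, by omega, fun u => ⟨u⁻¹, ?_⟩, ?_⟩
        · have : ((-d).toNat : ℤ) = -d := Int.toNat_of_nonneg (by omega)
          rw [← zpow_natCast, this, inv_zpow, zpow_neg]
        · rw [h] at hl
          intro h2
          apply hl
          rw [sub_eq_zero] at h2
          rw [zpow_neg, ← inv_zpow]
          exact Units.ext h2
    set r : K := ((l ^ d : Kˣ) : K) - 1 with hr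
    obtain ⟨u', hu'⟩ := hk (Units.mk0 r hne)⁻¹
    -- the element `c = u' (l - 1) ^ k`
    set m' : ℤ →₀ W := m - wact u' (dif l k m) with hm'
    have hin : wact u' (dif l k m) ∈ G := hG u' _ (dif_mem G hG l m hm k hk1)
    have hcomp : m' d = 0 := by
      rw [hm', Finsupp.sub_apply, wact_apply, dif_apply, smul_smul, hu', ← hr]
      have : (((Units.mk0 r hne)⁻¹ ^ k : Kˣ) : K) * r ^ k = 1 := by
        rw [Units.val_pow_eq_pow_val, Units.val_inv_eq_inv_val, Units.val_mk0, ← mul_pow,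
          inv_mul_cancel₀ hne, one_pow]
      rw [this, one_smul, sub_self]
    have hsupp : m'.support ⊂ m.support := by
      refine Finset.ssubset_iff_subset_ne.2 ⟨?_, ?_⟩
      · intro e he
        rw [Finsupp.mem_support_iff] at he ⊢
        intro h
        apply he
        rw [hm', Finsupp.sub_apply, wact_apply, dif_apply, h]
        simp
      · intro h
        rw [← h, Finsupp.mem_support_iff] at hd
        exact hd hcomp
    have h0' : m' 0 = 0 := by
      rw [hm', Finsupp.sub_apply, wact_apply, dif_apply, h0]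
      simp
    have hm'' : ∀ l' : Kˣ, wact l' m' - m' ∈ G := by
      intro l'
      have e : wact l' m' - m' = (wact l' m - m) - wact u' (dif l k (wact l' m - m)) := by
        rw [hm', wact_sub, wact_comm l' u', dif_comm, dif_sub, wact_sub]
        abel
      rw [e]
      refine G.sub_mem (hm l') (hG u' _ ?_)
      have : ∀ k : ℕ, dif l k (wact l' m - m) ∈ G := by
        intro k
        induction k with
        | zero => exact hm l'
        | succ k ih => exact G.sub_mem (hG l _ ih) ih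
      exact this k
    have := ih m'.support.card (by rw [← hc]; exact Finset.card_lt_card hsupp) m' rfl h0' hm''
    have e : m = m' + wact u' (dif l k m) := by rw [hm']; abel
    rw [e]
    exact G.add_mem this hin

end

/-- A factor `V ⊆ U` of subgroups of `G`, normalised by a one-parameter group `t` with values in
`H`, on which `t` acts through non-zero weights: there is a homomorphism from `U` to a graded
`K`-vector space, with kernel contained in `V`, compatible with `t`, whose image has no component of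
degree `0`. -/
def WeightStep (K : Type u) [Field K] {G : Type v} [Group G] (H U V : Subgroup G) : Prop :=
  ∃ (t : Kˣ →* G) (W : Type u) (_ : AddCommGroup W) (_ : Module K W)
    (p : U →* Multiplicative (ℤ →₀ W)),
    (∀ l, t l ∈ H) ∧
    (∀ u : U, p u = 1 → (u : G) ∈ V) ∧
    (∀ u : U, (Multiplicative.toAdd (p u)) 0 = 0) ∧
    ∀ (l : Kˣ) (u : U), ∃ h : t l * u * (t l)⁻¹ ∈ U,
      Multiplicative.toAdd (p ⟨t l * u * (t l)⁻¹, h⟩) = wact l (Multiplicative.toAdd (p u))

/-- One step of the descent. -/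
theorem exists_of_step [Infinite K] {G : Type v} [Group G] (H U V : Subgroup G)
    (hstep : WeightStep K H U V) (ψ : G) (hψ : ψ ∈ U) (hn : ∀ h ∈ H, ψ⁻¹ * h * ψ ∈ H) :
    ∃ v ∈ H, v ∈ U ∧ v⁻¹ * ψ ∈ V := by
  obtain ⟨t, W, hW1, hW2, p, htH, hker, hzero, hact⟩ := hstep
  -- the image of `H ∩ U`
  let Gs : AddSubgroup (ℤ →₀ W) :=
    { carrier := {m | ∃ v : U, (v : G) ∈ H ∧ Multiplicative.toAdd (p v) = m}
      add_mem' := by
        rintro a b ⟨v, hv, rfl⟩ ⟨w, hw, rfl⟩
        exact ⟨v * w, H.mul_mem hv hw, by rw [map_mul]; rfl⟩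
      zero_mem' := ⟨1, H.one_mem, by rw [map_one]; rfl⟩
      neg_mem' := by
        rintro a ⟨v, hv, rfl⟩
        exact ⟨v⁻¹, H.inv_mem hv, by rw [map_inv]; rfl⟩ }
  have hGs : ∀ (l : Kˣ), ∀ m ∈ Gs, wact l m ∈ Gs := by
    rintro l m ⟨v, hv, rfl⟩
    obtain ⟨h, he⟩ := hact l v
    exact ⟨⟨t l * v * (t l)⁻¹, h⟩, H.mul_mem (H.mul_mem (htH l) hv) (H.inv_mem (htH l)), he⟩
  set m := Multiplicative.toAdd (p ⟨ψ, hψ⟩) with hm
  have hdif : ∀ l : Kˣ, wact l m - m ∈ Gs := by
    intro l
    obtain ⟨h, he⟩ := hact l ⟨ψ, hψ⟩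
    have hv : ψ⁻¹ * (t l * ψ * (t l)⁻¹) ∈ H := by
      have := H.mul_mem (hn (t l) (htH l)) (H.inv_mem (htH l))
      simpa [mul_assoc] using this
    refine ⟨⟨ψ, hψ⟩⁻¹ * ⟨t l * ψ * (t l)⁻¹, h⟩, hv, ?_⟩
    rw [map_mul, map_inv]
    have : Multiplicative.toAdd ((p ⟨ψ, hψ⟩)⁻¹ * p ⟨t l * ψ * (t l)⁻¹, h⟩) =
      -m + Multiplicative.toAdd (p ⟨t l * ψ * (t l)⁻¹, h⟩) := rfl
    rw [this]
    have he' : Multiplicative.toAdd (p ⟨t l * ψ * (t l)⁻¹, h⟩) = wact l m := he
    rw [he']
    abel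
  obtain ⟨v, hvH, hv⟩ := mem_of_dif_mem Gs hGs _ m rfl (hzero _) hdif
  refine ⟨v, hvH, v.2, ?_⟩
  have h1 : p (v⁻¹ * ⟨ψ, hψ⟩) = 1 := by
    rw [map_mul, map_inv]
    have h2 : p v = p ⟨ψ, hψ⟩ := hv
    rw [h2, inv_mul_cancel]
  exact hker _ h1

/-- **Descent.** -/
theorem mem_of_series [Infinite K] {G : Type v} [Group G] (H : Subgroup G) (N : ℕ)
    (U : ℕ → Subgroup G) (hN : U N ≤ H) (hstep : ∀ i < N, WeightStep K H (U i) (U (i + 1)))
    (ψ : G) (hψ : ψ ∈ U 0) (hn : ∀ h ∈ H, ψ⁻¹ * h * ψ ∈ H) : ψ ∈ H := by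
  have key : ∀ i ≤ N, ∃ v ∈ H, v⁻¹ * ψ ∈ U i := by
    intro i
    induction i with
    | zero => exact fun _ => ⟨1, H.one_mem, by simpa using hψ⟩
    | succ i ih =>
      intro hi
      obtain ⟨v, hv, hvψ⟩ := ih (by omega)
      have hn' : ∀ h ∈ H, (v⁻¹ * ψ)⁻¹ * h * (v⁻¹ * ψ) ∈ H := by
        intro h hh
        have := hn (v * h * v⁻¹) (H.mul_mem (H.mul_mem hv hh) (H.inv_mem hv))
        simpa [mul_assoc] using this
      obtain ⟨w, hw, _, hwψ⟩ := exists_of_step H (U i) (U (i + 1)) (hstep i (by omega)) _ hvψ hn'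
      refine ⟨v * w, H.mul_mem hv hw, ?_⟩
      simpa [mul_assoc] using hwψ
  obtain ⟨v, hv, hvψ⟩ := key N le_rfl
  have := H.mul_mem hv (hN hvψ)
  simpa using this

end Pool.Agent.Lib.MP_e1f7e2_al
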