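import Pool.Agent.Lib.MP_e1f7e2_al.Defs
import Pool.Agent.Lib.MP_e1f7e2_al.Weights

set_option autoImplicit false

/-!
Algebras freely generated by `x i`, `i : Fin n` (polynomial algebras and free associative algebras),
with the grading by the weights `w` encoded in the homomorphism `Φ : A → A[X]`, `x i ↦ x i * X ^ w i`.
-/

namespace Pool.Agent.Lib.MP_e1f7e2_al

open Polynomial

universe u v

variable {K : Type u} [Field K] {A : Type v} [Ring A] [Algebra K A] {n : ℕ}

/-- `A` is generated by the `x i`, and homomorphisms from `A` to `A[X]` can be prescribed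
arbitrarily on the generators. -/
structure FreeOn (K : Type u) [Field K] {A : Type v} [Ring A] [Algebra K A] {n : ℕ}
    (x : Fin n → A) : Prop where
  adj : Algebra.adjoin K (Set.range x) = ⊤
  lift : ∀ y : Fin n → A[X], ∃ f : A →ₐ[K] A[X], ∀ i, f (x i) = y i

theorem freeOn_mvPolynomial (K : Type u) [Field K] (n : ℕ) :
    FreeOn K (MvPolynomial.X : Fin n → MvPolynomial (Fin n) K) where
  adj := MvPolynomial.adjoin_range_X
  lift y := ⟨MvPolynomial.aeval y, fun _ => MvPolynomial.aeval_X _ _⟩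

theorem freeOn_freeAlgebra (K : Type u) [Field K] (n : ℕ) :
    FreeOn K (FreeAlgebra.ι K : Fin n → FreeAlgebra K (Fin n)) where
  adj := FreeAlgebra.adjoin_range_ι K (Fin n)
  lift y := ⟨FreeAlgebra.lift K y, fun _ => FreeAlgebra.lift_ι_apply _ _⟩

lemma X_pow_dvd_mul_left {p : A[X]} {k : ℕ} (h : X ^ k ∣ p) (q : A[X]) : X ^ k ∣ q * p := by
  obtain ⟨r, rfl⟩ := h
  exact ⟨q * r, by rw [← mul_assoc, ← mul_assoc, X_pow_mul]⟩

lemma X_pow_dvd_mul_right {p : A[X]} {k : ℕ} (h : X ^ k ∣ p) (q : A[X]) : X ^ k ∣ p * q :=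
  Dvd.dvd.mul_right h q

namespace FreeOn

variable {x : Fin n → A} (hx : FreeOn K x)

include hx

lemma hom_ext {B : Type*} [Semiring B] [Algebra K B] {f g : A →ₐ[K] B}
    (h : ∀ i, f (x i) = g (x i)) : f = g :=
  AlgHom.ext_of_adjoin_eq_top hx.adj (by rintro _ ⟨i, rfl⟩; exact h i)

lemma aut_ext {f g : A ≃ₐ[K] A} (h : ∀ i, f (x i) = g (x i)) : f = g := by
  have := hx.hom_ext (f := f.toAlgHom) (g := g.toAlgHom) h
  ext a
  exact AlgHom.congr_fun this a

/-- Induction on the elements of `A`. -/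
lemma induction {P : A → Prop} (hgen : ∀ i, P (x i)) (hs : ∀ c : K, P (algebraMap K A c))
    (hadd : ∀ a b, P a → P b → P (a + b)) (hmul : ∀ a b, P a → P b → P (a * b)) (a : A) : P a := by
  have ha : a ∈ Algebra.adjoin K (Set.range x) := by rw [hx.adj]; trivial
  induction ha using Algebra.adjoin_induction with
  | mem y hy => obtain ⟨i, rfl⟩ := hy; exact hgen i
  | algebraMap c => exact hs c
  | add a b _ _ iha ihb => exact hadd a b iha ihb
  | mul a b _ _ iha ihb => exact hmul a b iha ihb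

lemma exists_hom (y : Fin n → A) : ∃ f : A →ₐ[K] A, ∀ i, f (x i) = y i := by
  obtain ⟨f, hf⟩ := hx.lift (fun i => C (y i))
  refine ⟨(eval₂AlgHom (AlgHom.id K A) 0 (fun a => Commute.zero_right a)).comp f, fun i => ?_⟩
  simp [hf]

/-- The endomorphism with given values on the generators. -/
noncomputable def map (y : Fin n → A) : A →ₐ[K] A := Classical.choose (hx.exists_hom y)

@[simp] lemma map_x (y : Fin n → A) (i : Fin n) : hx.map y (x i) = y i :=
  Classical.choose_spec (hx.exists_hom y) i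

/-- The automorphism with given values on the generators. -/
noncomputable def aut (y z : Fin n → A) (h1 : ∀ i, hx.map y (z i) = x i)
    (h2 : ∀ i, hx.map z (y i) = x i) : A ≃ₐ[K] A :=
  AlgEquiv.ofAlgHom (hx.map y) (hx.map z)
    (hx.hom_ext (by intro i; simp [h1]))
    (hx.hom_ext (by intro i; simp [h2]))

@[simp] lemma aut_x (y z : Fin n → A) (h1 : ∀ i, hx.map y (z i) = x i)
    (h2 : ∀ i, hx.map z (y i) = x i) (i : Fin n) : hx.aut y z h1 h2 (x i) = y i := by
  simp [aut]

/-- The one-parameter group with the weights `w`. -/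
noncomputable def diag (w : Fin n → ℤ) : Kˣ →* (A ≃ₐ[K] A) where
  toFun l := hx.aut (fun i => ((l ^ w i : Kˣ) : K) • x i) (fun i => (((l ^ w i)⁻¹ : Kˣ) : K) • x i)
    (by intro i; rw [map_smul, hx.map_x, smul_smul, ← Units.val_mul, inv_mul_cancel]; simp)
    (by intro i; rw [map_smul, hx.map_x, smul_smul, ← Units.val_mul, mul_inv_cancel]; simp)
  map_one' := hx.aut_ext (by intro i; simp)
  map_mul' l m := hx.aut_ext (by
    intro i
    simp only [AlgEquiv.mul_apply, aut_x, map_smul, smul_smul, mul_zpow, Units.val_mul]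
    rw [mul_comm])

@[simp] lemma diag_x (w : Fin n → ℤ) (l : Kˣ) (i : Fin n) :
    hx.diag w l (x i) = ((l ^ w i : Kˣ) : K) • x i := by
  simp [diag]

lemma diag_mem (w : Fin n → ℤ) (l : Kˣ) : hx.diag w l ∈ TAut K x := by
  apply IsAffine.mem
  intro i
  rw [hx.diag_x]
  exact Submodule.smul_mem _ _ (Submodule.subset_span (Or.inr ⟨i, rfl⟩))

/-- The homomorphism `x i ↦ x i * X ^ w i`, whose coefficients are the homogeneous components for
the weights `w`. -/
noncomputable def Phi (w : Fin n → ℕ) : A →ₐ[K] A[X] :=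
  Classical.choose (hx.lift (fun i => C (x i) * X ^ w i))

@[simp] lemma Phi_x (w : Fin n → ℕ) (i : Fin n) : hx.Phi w (x i) = C (x i) * X ^ w i :=
  Classical.choose_spec (hx.lift (fun i => C (x i) * X ^ w i)) i

lemma Phi_algebraMap (w : Fin n → ℕ) (c : K) :
    hx.Phi w (algebraMap K A c) = C (algebraMap K A c) := by
  rw [AlgHom.commutes]
  rfl

/-- The one-parameter group with the (natural) weights `w`. -/
noncomputable def tor (w : Fin n → ℕ) : Kˣ →* (A ≃ₐ[K] A) := hx.diag (fun i => (w i : ℤ))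

@[simp] lemma tor_x (w : Fin n → ℕ) (l : Kˣ) (i : Fin n) :
    hx.tor w l (x i) = ((l : K) ^ w i) • x i := by
  simp [tor]

lemma tor_mem (w : Fin n → ℕ) (l : Kˣ) : hx.tor w l ∈ TAut K x := hx.diag_mem _ l

/-- Evaluation at a scalar. -/
lemma eval_Phi (w : Fin n → ℕ) (l : Kˣ) (a : A) :
    (hx.Phi w a).eval (algebraMap K A (l : K)) = hx.tor w l a := by
  have : (eval₂AlgHom (AlgHom.id K A) (algebraMap K A (l : K))
      (fun a => (Algebra.commutes _ _).symm)).comp (hx.Phi w) = (hx.tor w l).toAlgHom := by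
    apply hx.hom_ext
    intro i
    have h1 : x i * (algebraMap K A) (l : K) ^ w i = (algebraMap K A) (l : K) ^ w i * x i := by
      rw [← map_pow, Algebra.commutes]
    simp [Algebra.smul_def, h1]
  exact AlgHom.congr_fun this a

lemma coeff_Phi_tor (w : Fin n → ℕ) (l : Kˣ) (a : A) (d : ℕ) :
    (hx.Phi w (hx.tor w l a)).coeff d = ((l : K) ^ d) • (hx.Phi w a).coeff d := by
  induction a using hx.induction generalizing d with
  | hgen i =>
    simp only [tor_x, map_smul, Phi_x, coeff_smul, coeff_C_mul, coeff_X_pow]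
    split_ifs with h
    · rw [h]
    · simp
  | hs c =>
    rw [AlgEquiv.commutes, hx.Phi_algebraMap, coeff_C]
    split_ifs with h
    · subst h; simp
    · simp
  | hadd a b ha hb => simp only [map_add, coeff_add, ha, hb, smul_add]
  | hmul a b ha hb =>
    simp only [map_mul, coeff_mul, Finset.smul_sum]
    refine Finset.sum_congr rfl ?_
    rintro ⟨i, j⟩ hij
    rw [Finset.HasAntidiagonal.mem_antidiagonal] at hij
    simp only [ha, hb]
    rw [← hij, pow_add, smul_mul_smul_comm]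

omit hx in
/-- The extension of a homomorphism `Ψ : A → A[X]` to `A[X]`, with `X ↦ X`. -/
noncomputable def hat (Ψ : A →ₐ[K] A[X]) : A[X] →ₐ[K] A[X] :=
  eval₂AlgHom Ψ X (fun _ => (commute_X _).symm)

omit hx in
@[simp] lemma hat_C (Ψ : A →ₐ[K] A[X]) (a : A) : hat Ψ (C a) = Ψ a := by simp [hat]

omit hx in
@[simp] lemma hat_X (Ψ : A →ₐ[K] A[X]) : hat Ψ X = X := by simp [hat]

omit hx in
lemma hat_sub_dvd (Ψ : A →ₐ[K] A[X]) (k : ℕ) (h : ∀ a, X ^ k ∣ Ψ a - C a) (q : A[X]) :
    X ^ k ∣ hat Ψ q - q := by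
  induction q using Polynomial.induction_on with
  | C a => simpa using h a
  | add p q hp hq =>
    have : hat Ψ (p + q) - (p + q) = (hat Ψ p - p) + (hat Ψ q - q) := by rw [map_add]; abel
    rw [this]
    exact dvd_add hp hq
  | monomial m a _ =>
    have : hat Ψ (C a * X ^ (m + 1)) - C a * X ^ (m + 1) = (Ψ a - C a) * X ^ (m + 1) := by
      rw [map_mul, map_pow, hat_C, hat_X, sub_mul]
    rw [this]
    exact X_pow_dvd_mul_right (h a) _

lemma sub_dvd_of_gen (f g : A →ₐ[K] A[X]) (k : ℕ) (h : ∀ i, X ^ k ∣ f (x i) - g (x i)) (a : A) :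
    X ^ k ∣ f a - g a := by
  induction a using hx.induction with
  | hgen i => exact h i
  | hs c => simp
  | hadd a b ha hb =>
    have : f (a + b) - g (a + b) = (f a - g a) + (f b - g b) := by rw [map_add, map_add]; abel
    rw [this]
    exact dvd_add ha hb
  | hmul a b ha hb =>
    have : f (a * b) - g (a * b) = f a * (f b - g b) + (f a - g a) * g b := by
      rw [map_mul, map_mul, mul_sub, sub_mul]; abel
    rw [this]
    exact dvd_add (X_pow_dvd_mul_left hb _) (X_pow_dvd_mul_right ha _)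

/-- `g` is congruent to the identity up to order `k`, for the weights `w`. -/
def Near (w : Fin n → ℕ) (k : ℕ) (g : A ≃ₐ[K] A) : Prop :=
  ∀ a j, X ^ j ∣ hx.Phi w a → X ^ (j + k) ∣ hx.Phi w (g a) - hx.Phi w a

lemma near_of_gen (w : Fin n → ℕ) (k : ℕ) (g : A ≃ₐ[K] A)
    (h : ∀ i, X ^ (w i + k) ∣ hx.Phi w (g (x i)) - hx.Phi w (x i)) : hx.Near w k g := by
  intro a j hj
  choose r hr using h
  obtain ⟨Ψ, hΨ⟩ := hx.lift (fun i => C (x i) + X ^ k * r i)
  have hcomp : ∀ a, hx.Phi w (g a) = hat Ψ (hx.Phi w a) := by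
    have : (hx.Phi w).comp g.toAlgHom = (hat Ψ).comp (hx.Phi w) := by
      apply hx.hom_ext
      intro i
      have h1 : hx.Phi w (g (x i)) = hx.Phi w (x i) + X ^ (w i + k) * r i := by
        rw [← hr i]; abel
      simp only [AlgHom.comp_apply, Phi_x, map_mul, map_pow, hat_C, hat_X, hΨ]
      show hx.Phi w (g (x i)) = _
      rw [h1, Phi_x, add_mul, pow_add, mul_assoc (X ^ w i), X_pow_mul (p := X ^ k * r i)]
    exact fun a => AlgHom.congr_fun this a
  have h1 : ∀ a, X ^ k ∣ Ψ a - C a := by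
    intro a
    have := hx.sub_dvd_of_gen Ψ CAlgHom k (by
      intro i
      rw [hΨ]
      exact ⟨r i, by simp⟩) a
    exact this
  obtain ⟨q, hq⟩ := hj
  have h2 : hx.Phi w (g a) - hx.Phi w a = X ^ j * (hat Ψ q - q) := by
    rw [hcomp, hq, map_mul, map_pow, hat_X, mul_sub]
  rw [h2, pow_add]
  exact mul_dvd_mul_left _ (hat_sub_dvd Ψ k h1 q)

omit hx in
lemma _root_.Pool.Agent.Lib.MP_e1f7e2_al.dvd_of_sub {p q : A[X]} {j k : ℕ} (hjk : j ≤ k)
    (h1 : X ^ k ∣ p - q) (h2 : X ^ j ∣ q) : X ^ j ∣ p := by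
  have : p = (p - q) + q := by abel
  rw [this]
  exact dvd_add ((pow_dvd_pow X hjk).trans h1) h2

/-- The group of automorphisms which are the identity up to order `k` (for `1 ≤ k`). -/
noncomputable def U (w : Fin n → ℕ) (k : ℕ) : Subgroup (A ≃ₐ[K] A) where
  carrier := {g | 1 ≤ k → hx.Near w k g}
  one_mem' := by
    intro _ a j _
    simp
  mul_mem' := by
    intro g h hg hh hk a j hj
    have h1 := hh hk a j hj
    have h2 : X ^ j ∣ hx.Phi w (h a) := dvd_of_sub (by omega) h1 hj
    have h3 := hg hk (h a) j h2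
    have : hx.Phi w ((g * h) a) - hx.Phi w a
        = (hx.Phi w (g (h a)) - hx.Phi w (h a)) + (hx.Phi w (h a) - hx.Phi w a) := by
      rw [AlgEquiv.mul_apply]; abel
    rw [this]
    exact dvd_add h3 h1
  inv_mem' := by
    intro g hg hk a j hj
    have hinv : g (g⁻¹ a) = a := by
      rw [← AlgEquiv.mul_apply, mul_inv_cancel]; rfl
    have key : ∀ i ≤ j, X ^ i ∣ hx.Phi w (g⁻¹ a) := by
      intro i
      induction i with
      | zero => intro _; simp
      | succ i ih =>
        intro hi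
        have h1 := hg hk (g⁻¹ a) i (ih (by omega))
        rw [hinv] at h1
        have h2 : hx.Phi w (g⁻¹ a) = hx.Phi w a - (hx.Phi w a - hx.Phi w (g⁻¹ a)) := by abel
        rw [h2]
        exact dvd_sub ((pow_dvd_pow X hi).trans hj) ((pow_dvd_pow X (by omega)).trans h1)
    have h1 := hg hk (g⁻¹ a) j (key j le_rfl)
    rw [hinv] at h1
    rw [← neg_sub]
    exact (dvd_neg).2 h1

lemma mem_U_iff (w : Fin n → ℕ) (k : ℕ) (hk : 1 ≤ k) (g : A ≃ₐ[K] A) :
    g ∈ hx.U w k ↔ ∀ i, X ^ (w i + k) ∣ hx.Phi w (g (x i)) - hx.Phi w (x i) := by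
  constructor
  · intro h i
    exact h hk (x i) (w i) ⟨C (x i), by rw [hx.Phi_x, X_pow_mul]⟩
  · intro h _
    exact hx.near_of_gen w k g h

end FreeOn

end Pool.Agent.Lib.MP_e1f7e2_al
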